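import Pool.Agent.Helper84.LE.All
import Pool.Agent.Helper22.NL.Asm
import Pool.Agent.Helper22.NL.M_NNr
import Pool.Agent.Helper22.NL.M_NwR
import Pool.Agent.Helper22.NL.M_LevG
import Pool.Agent.Helper22.NL.M_LevR
import Pool.Agent.Helper22.NL.M_PsiR
import Pool.Agent.Helper22.NL.M_MassG
import Pool.Agent.Helper22.NL.M_MassR
import Pool.Agent.Helper22.NL.M_RecR
import Pool.Agent.Helper22.NL.M_N0R
import Pool.Agent.Helper22.NL.M_DiagR
import Pool.Agent.Helper22.NL.M_TauLeft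
import Pool.Agent.Helper22.NL.M_KpSup
import Pool.Agent.Helper22.NL.M_KpTau
import Pool.Agent.Helper22.NL.M_KpQ
import Pool.Agent.Helper22.NL.M_DiagH
import Pool.Agent.Helper22.NL.M_Fej1
import Pool.Agent.Helper22.NL.M_FejD
import Pool.Agent.Helper22.NL.M_FejP
import Pool.Agent.Helper22.NL.M_A1
import Pool.Agent.Helper22.NL.M_CoefU
import Pool.Agent.Helper22.NL.M_G3
import Pool.Agent.Helper22.NL.M_Fin
import Pool.Agent.Helper22.NL.M_Heq
import Pool.Agent.Helper22.NL.M_LocE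
import Pool.Agent.Helper22.NL.M_FZ
import Pool.Agent.Helper22.NL.M_Test
import Pool.Agent.Helper22.NL.M_A3
import Pool.Agent.Helper22.NL.M_Basic
import Pool.Agent.Helper22.NL.M_Edge
import Pool.Agent.Helper22.NL.M_Clu
import Pool.Agent.Helper22.NL.M_Hh
import Pool.Agent.Helper22.NL.M_TG2
import Pool.Agent.Helper22.NL.M_InsS
import Pool.Agent.Helper22.NL.M_Ker
import Pool.Agent.Helper22.NL.M_MomS
import Pool.Agent.Helper22.NL.M_MK
import Pool.Agent.Helper22.NL.M_Off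
import Pool.Agent.Helper22.NL.M_Pair1
import Pool.Agent.Helper22.NL.M_Pair2
import Pool.Agent.Helper22.NL.M_Surg
import Pool.Agent.Helper22.NL.M_Dist
import Pool.Agent.Helper22.NL.M_Cov
import Pool.Agent.Helper22.NL.M_N2
import Pool.Agent.Helper22.NL.M_CS
import Pool.Agent.Helper22.NL.M_T4
import Pool.Agent.Helper22.NL.M_G2
import Pool.Agent.Helper22.NL.M_Sa
import Pool.Agent.Helper22.NL.M_Sb
import Pool.Agent.Helper22.NL.M_Sc
import Pool.Agent.Helper22.NL.M_Sd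
import Pool.Agent.Helper22.NL.M_PZ
import Pool.Agent.Helper22.NL.M_Graph
import Pool.Agent.Helper22.NL.M_Spr
import Pool.Agent.Helper22.NL.M_Grow
import Pool.Agent.Helper22.NL.M_Tree
import Pool.Agent.Helper22.NL.M_Sec2
import Pool.Agent.Helper22.NL.M_Bn
import Pool.Agent.Helper22.NL.M_CpTau
import Pool.Agent.Helper22.NL.M_Hub
import Pool.Agent.Helper22.NL.M_Tri
import Pool.Agent.Helper22.NL.M_Err
import Pool.Agent.Helper22.NL.M_Shift
import Pool.Agent.Helper22.NL.M_Many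
import Pool.Agent.Helper22.NL.M_Line
import Pool.Agent.Helper22.NL.M_Brg
import Pool.Agent.Helper22.NL.M_X2
import Pool.Agent.Helper22.NL.M_MomB
import Pool.Agent.Helper22.NL.M_Big
import Pool.Agent.Helper22.NL.M_LowJ
import Pool.Agent.Helper22.NL.M_UpJ
import Pool.Agent.Helper22.NL.M_Fam
import Pool.Agent.Helper22.NL.M_SprB
import Pool.Agent.Helper22.NL.M_Tra
import Pool.Agent.Helper22.NL.M_Low
import Pool.Agent.Helper22.NL.M_Up
import Pool.Agent.Helper22.NL.M_LawE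
import Pool.Agent.Helper22.NL.M_ClZ
import Pool.Agent.Helper56.WF.M_FG
import Pool.Agent.Helper56.WF.M_Cp
import Pool.Agent.Helper56.WF.M_Mom
import Pool.Agent.Helper56.WF.M_Subm
import Pool.Agent.Helper56.WF.M_Dec
import Pool.Agent.Helper56.WF.M_ArmG
import Pool.Agent.Helper56.WF.M_Der
import Pool.Agent.Helper56.WF.M_PHlow
import Pool.Agent.Helper56.WF.M_K3
import Pool.Agent.Helper56.WF.M_PE
import Pool.Agent.Helper56.WF.M_Hc
import Pool.Agent.Helper56.WF.M_HcLim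
import Pool.Agent.Helper56.WF.M_FV
import Pool.Agent.Helper56.WF.M_Dbl
import Pool.Agent.Helper56.WF.M_ChiUp
import Pool.Agent.Helper56.WF.M_Hol
import Pool.Agent.Helper56.WF.M_Kap
import Pool.Agent.Helper56.WF.M_Tree4
import Pool.Agent.Helper56.WF.M_Arm
import Pool.Agent.Helper56.WF.M_SumB
import Pool.Agent.Helper56.WF.M_Sum
import Pool.Agent.Helper56.WF.M_LawW
import Pool.Agent.Helper56.WF.M_ReW
import Pool.Agent.Helper56.WF.M_ArmW
import Pool.Agent.Helper56.WF.M_PcW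
import Pool.Agent.Helper56.WF.M_FinW

/-!
# All proved statements of the projects LE, NL, WF as separate theorems (MP_65faa7)
-/

set_option autoImplicit false
set_option linter.defProp false

open Pool.LE Pool.NL

namespace Pool.BB

def hPE := LE.hPolyExp
theorem hPH : StPH := LE.hPH LE.hPhi
def hDiag := LE.allFinite
theorem hCoef : StCoef := LE.allCoef
theorem hBox : StBox := LE.hBox
def hW := LE.hWalkBox hBox
def hT := LE.hTransl
def hCLc := LE.hCoefLoc (LE.hCoefLoc0 hW) hT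
def hGE := LE.hGmEq
def hRX := LE.hRenX
theorem hSupp : StSupp := LE.hSupp hW hBox
theorem hGcoef : StGcoef := LE.hGcoef hCoef hCLc hGE hSupp hBox
def hSyT := LE.hSymT
def hSyG := LE.hSymG hSyT
def hPoly := LE.hPoly hGE
def hTN := LE.hTnNonneg
def hTS := LE.hTauSum hCLc hBox hW
theorem hTauDom : StTauDom := LE.hTauDom hT hBox
theorem hTauMono : StTauMono := LE.hTauMono
theorem hTauBasic : StTauBasic := LE.hTauBasic hTS hSyT
theorem hQw : StQw := LE.hQw
def hDZ := LE.hDiagZ hDiag hGcoef hTauDom hTauBasic hQw hBox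
theorem hNuProb : StNuProb := LE.hNuProb
theorem hCos1 : StCos1 := LE.hCos1
theorem hRW : StRW := LE.hRW LE.hRW0 (LE.hRW1 hNuProb) (LE.hDh2 hNuProb) hCos1 hNuProb
theorem hDh : StDh := LE.hDh
def hFTb := LE.hFTb
def hFTadd := LE.hFTadd
def hCv := LE.hCv hQw
def hCvFT := LE.hCvFT hCv hFTb
def hJf := LE.hJf hBox
theorem hInv : StInv := LE.hInv hNuProb
theorem hKpInt : StKpInt := LE.hKpInt hInv
def hIso := LE.hIso
def hSec := LE.hSec hIso hDh hFTb
theorem hBK : StBK := LE.hBK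
def hEM := LE.hExpMom (LE.hExit hBK hT hBox) hTauBasic hBox
def hSub := LE.hSub hPH hEM hPE hTauBasic
def hTBx := LE.hTauBox hBox hTauBasic
def hTC := LE.hTauCont (LE.hTauCont0 hTBx hSub hTauMono hTauBasic) hSub hTauMono hTauBasic
def hSp := LE.hSphere hBox hTauDom
def hCI := LE.hChiInf hSp hPH
def hChL := LE.hChiLim hCI hPH hTauBasic hSub
def hS6all := LE.hS6 hSub hTC hChL hPH
def h6a := hS6all.1
def h6b := hS6all.2.1
def h6c := hS6all.2.2.1
def hS6d := hS6all.2.2.2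
def hTh := LE.hTheta LE.hRusso (LE.hPivCount hBox) hPH hBox
def hThS := LE.hThetaSub hSub hTauDom hTauBasic hBox
theorem hAE : StAE := LE.hAE
theorem hB1 : StB1 := LE.hB1 h6a hS6d hTauBasic
theorem hKft : StKft := LE.hKft hB1 hFTb hDh
def hEta := LE.hEta hB1 hAE hKft hRW hKpInt hDZ hTauBasic hDh
theorem hCvA : StCvA := LE.hCvA hSyG hFTb
def hCvB := LE.hCvB hTS hTauBasic hRX hSupp hBox hTN hCvA
def hImpF := LE.hImpF hCv hCvFT hFTadd hJf hFTb
def hImp := LE.hImp hImpF LE.hImpR hSec hDh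
def hBoot := LE.hBoot hB1 hEta hCvA hCvB hImp hTauBasic
def hOCc := LE.hOCc h6b hB1 hFTadd hFTb hDh
theorem hB7 : StB7 := LE.hB7 hBoot LE.hOC0 (LE.hOC1 hOCc) LE.hCon01 hS6d
def hLim := LE.hLim hPoly
def hGc := LE.hGcont hPoly hSupp
def hCrit := LE.hCrit h6a h6c hTauBasic hCvA hCvB hImpF hGc hS6d hB1
theorem hB8 : StB8 := LE.hB8 hB7 hLim hCrit hS6d
theorem hLaw : StLaw := LE.hLaw hBox
theorem hPc : StPc := LE.hPc hLaw (LE.hGinf hBox) hTh hThS hPH
theorem hBR : StBR := LE.hBR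
theorem hLastU : StLastU := LE.hLastU
theorem hMenger : StMenger := LE.hMenger
theorem hTRcm : StTRcm := LE.hTRcm hBK
theorem hDRBK : StDRBK := LE.hDRBK hBK hTRcm
theorem hBase : StBase := LE.hBase (LE.hBase0 hMenger) LE.hSD
theorem hATT : StATT := LE.hATT LE.hWIT
theorem hEAR : StEAR := LE.hEAR LE.hWIT
theorem hN0a : StN0a := LE.hN0a
theorem hNNr : StNNr := Pool.NL.hNNr
theorem hNwR : StNwR := Pool.NL.hNwR hNNr hLastU hBR
theorem hLevG : StLevG := Pool.NL.hLevG hEAR hATT hDRBK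
theorem hLevR : StLevR := Pool.NL.hLevR hNwR hBase hLevG
theorem hPsiR : StPsiR := Pool.NL.hPsiR hNNr hLevR
theorem hMassG : StMassG := Pool.NL.hMassG
theorem hMassR : StMassR := Pool.NL.hMassR hMassG
theorem hRecR : StRecR := Pool.NL.hRecR hMassR
theorem hN0R : StN0R := Pool.NL.hN0R hNNr hMenger hBK hTRcm
theorem hDiagR : StDiagR := Pool.NL.hDiagR hNNr hPsiR hRecR hN0a hN0R
theorem hTauLeft : StTauLeft := Pool.NL.hTauLeft hPH hTauMono
theorem hKpSup : StKpSup := Pool.NL.hKpSup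
theorem hKpTau : StKpTau := Pool.NL.hKpTau hTauLeft hKpSup hB7 hB1 hKpInt hRW hTauBasic hAE hTauMono hS6d hDh
theorem hKpQ : StKpQ := Pool.NL.hKpQ hTauLeft hKpSup hB7 hB1 hKft hKpInt hRW hTauBasic hAE hTauMono hS6d hQw
theorem hDiagH : StDiagH := Pool.NL.hDiagH hDiagR hKpTau hTauDom hTauBasic hBox hB8
theorem hFej1 : StFej1 := Pool.NL.hFej1 hNuProb
theorem hFejD : StFejD := Pool.NL.hFejD hFej1 hNuProb hDh
theorem hFejP : StFejP := Pool.NL.hFejP hInv
theorem hA1 : StA1 := Pool.NL.hA1 hFejD hFejP hTauLeft hB7 hB1 hTauBasic hAE hDh hFej1 hTauMono hNuProb hS6d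
theorem hCoefU : StCoefU := Pool.NL.hCoefU hCoef
theorem hG3 : StG3 := Pool.NL.hG3 hDiagH hCoefU hGcoef hBox
theorem hFin : StFin := Pool.NL.hFin hCoef hCoefU
theorem hBn : StBn := Pool.NL.hBn hBox
theorem hBasic : StBasic := Pool.NL.hBasic
theorem hClu : StClu := Pool.NL.hClu
theorem hHh : StHh := Pool.NL.hHh hBasic hClu
theorem hHeq : StHeq := Pool.NL.hHeq hFin hBn hHh hBox
theorem hLocE : StLocE := Pool.NL.hLocE hFin hGcoef hCoefU hSupp hBox hBn
theorem hFZ : StFZ := Pool.NL.hFZ hB8 hCvA hBox hS6d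
theorem hTest : StTest := Pool.NL.hTest
theorem hCpTau : StCpTau := Pool.NL.hCpTau hTauDom hTauBasic hBasic hBn
theorem hA3 : StA3 := Pool.NL.hA3 hG3 hHeq hLocE hFin hFZ hTest hA1 hCpTau hBn hHh hB8 hS6d
theorem hEdge : StEdge := Pool.NL.hEdge
theorem hTG2 : StTG2 := Pool.NL.hTG2 hATT hDRBK hBasic hHh
theorem hInsS : StInsS := Pool.NL.hInsS
theorem hKer : StKer := Pool.NL.hKer
theorem hMomS : StMomS := Pool.NL.hMomS hATT hDRBK hInsS hKer hBasic hHh hClu
theorem hMK : StMK := Pool.NL.hMK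
theorem hOff : StOff := Pool.NL.hOff hBK hBasic hHh hClu
theorem hPair1 : StPair1 := Pool.NL.hPair1 hMK hOff hTG2 hBasic hHh hClu
theorem hPair2 : StPair2 := Pool.NL.hPair2 hMK hOff hTG2 hBasic hHh hClu
theorem hSurg : StSurg := Pool.NL.hSurg hBasic hEdge hClu
theorem hDist : StDist := Pool.NL.hDist hMK hBasic
theorem hCov : StCov := Pool.NL.hCov hEdge hBasic hClu
theorem hN2 : StN2 := Pool.NL.hN2 hEdge hBasic hClu hHh
theorem hCS : StCS := Pool.NL.hCS hCov hN2 hBasic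
theorem hT4 : StT4 := Pool.NL.hT4 hBasic
theorem hG2 : StG2 := Pool.NL.hG2 hTG2 hBasic hHh
theorem hSa : StSa := Pool.NL.hSa hDist hBasic hClu
theorem hSb : StSb := Pool.NL.hSb hDist hBasic hClu
theorem hSc : StSc := Pool.NL.hSc hDist hBasic hClu
theorem hSd : StSd := Pool.NL.hSd hBasic hClu
theorem hPZ : StPZ := Pool.NL.hPZ hBasic
theorem hGraph : StGraph := Pool.NL.hGraph hClu
theorem hSpr : StSpr := Pool.NL.hSpr
theorem hGrow : StGrow := Pool.NL.hGrow hEdge hBasic hClu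
theorem hTree : StTree := Pool.NL.hTree hEdge hBasic hClu
theorem hSec2 : StSec2 := Pool.NL.hSec2 hDist hBasic hClu
theorem hHub : StHub := Pool.NL.hHub hCpTau hBn hTauBasic
theorem hTri : StTri := Pool.NL.hTri hCpTau hTauBasic hQw hBn
theorem hErr : StErr := Pool.NL.hErr hTri hHub hBn hHh
theorem hShift : StShift := Pool.NL.hShift
theorem hMany : StMany := Pool.NL.hMany hBn
theorem hLine : StLine := Pool.NL.hLine hSurg hBn hBox
theorem hBrg : StBrg := Pool.NL.hBrg hMany hShift hPair1 hErr hLine hHub hBn hQw hHh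
theorem hX2 : StX2 := Pool.NL.hX2 hBrg hCS hHub hBn
theorem hMomB : StMomB := Pool.NL.hMomB hMomS hHub hHh hBasic hBn
theorem hBig : StBig := Pool.NL.hBig hX2 hMomB hMany hT4 hBn
theorem hLowJ : StLowJ := Pool.NL.hLowJ hBig hShift hPair2 hErr hLine hBn hBasic
theorem hUpJ : StUpJ := Pool.NL.hUpJ hMomB hSa hSb hSc hSd hG2 hTri hHub hBn hClu hHh
theorem hFam : StFam := Pool.NL.hFam hLowJ hUpJ hPZ hGraph hBn hBasic
theorem hSprB : StSprB := Pool.NL.hSprB hFam hSpr hGrow hBn hBasic hClu hS6d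
theorem hTra : StTra := Pool.NL.hTra hSprB hTree hBn hBasic
theorem hLow : StLow := Pool.NL.hLow hTra hSec2 hMomB hBn hBasic
theorem hUp : StUp := Pool.NL.hUp hMomS hHub hBn hBasic
theorem hLawE : StLawE := Pool.NL.hLawE hLaw hBox hBasic
theorem hClZ : StClZ := Pool.NL.hClZ hBox
theorem hEnv : StEnv := envOf hA1 hKpQ hA3 hB8
theorem wFG : Pool.WF.StFG := Pool.WF.hFG hBox
theorem wCp : Pool.WF.StCp := Pool.WF.hCp hTauDom hTauBasic hBasic wFG
theorem wMom : Pool.WF.StMom := Pool.WF.hMom hB7 hB1 hTauBasic hFTb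
theorem wSubm : Pool.WF.StSubm := Pool.WF.hSubm hTRcm hTauDom hBox
theorem wDec : Pool.WF.StDec := Pool.WF.hDec wMom wSubm hB1 hTauBasic hS6d
theorem wArmG : Pool.WF.StArmG := Pool.WF.hArmG hBox
theorem wDer : Pool.WF.StDer := Pool.WF.hDer LE.hRusso hBasic hClu
theorem wPHlow : Pool.WF.StPHlow := Pool.WF.hPHlow hBox
theorem wK3 : Pool.WF.StK3 := Pool.WF.hK3 hKpTau hTauMono hTauBasic wPHlow hBox hS6d
theorem wPE : Pool.WF.StPE := Pool.WF.hPE wK3 wCp hHh wFG hB1 hTauBasic hBox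
theorem wHc : Pool.WF.StHc := Pool.WF.hHc hT hBasic hBox
theorem wHcLim : Pool.WF.StHcLim := Pool.WF.hHcLim hB1 hTauBasic hTauDom hBasic hBox hS6d
theorem wFV : Pool.WF.StFV := Pool.WF.hFV wDer wPE wHc hPair1 wFG hClu hHh hBn hB1 hBox hTauMono hTauBasic hS6d
theorem wDbl : Pool.WF.StDbl := Pool.WF.hDbl wFV wHcLim hB1
theorem wChiUp : Pool.WF.StChiUp := Pool.WF.hChiUp wDbl hB1 hTauMono hTauBasic
theorem wHol : Pool.WF.StHol := Pool.WF.hHol
theorem wKap : Pool.WF.StKap := Pool.WF.hKap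
theorem wTree4 : Pool.WF.StTree4 := Pool.WF.hTree4 hEdge hBasic wHol wKap
theorem wArm : Pool.WF.StArm := Pool.WF.hArm wTree4 wKap wChiUp wDec wArmG wPE wFG hBasic hHh hClu hB1 hB7 hS6d hBox wPHlow
theorem wSum : Pool.WF.StSum := Pool.WF.hSum wArm Pool.WF.hSumB hBasic hBox hS6d
theorem wReW : Pool.WF.StReW := Pool.WF.hReW hBox
theorem wArmW : Pool.WF.StArmW := Pool.WF.hArmW Pool.WF.hLawW wReW
theorem wPcW : Pool.WF.StPcW := Pool.WF.hPcW Pool.WF.hLawW wReW hTh hThS hPH hBox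

end Pool.BB
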